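import Mathlib
import Pool.Agent.H248.Sahi.Final

open Classical

namespace Pool.Agent.Results.MP_17d4d1_pr.AllButTwoLSM

/-- Sahi's inequality `E_n(f_1,…,f_n) ≥ 0` for every FKG probability measure `μ` on the subsets of
a finite set and every `n ≥ 1`, where at most two of the nonnegative nondecreasing functions
(those with index in `J`) are arbitrary and each of the others is a finite sum of nonnegative
nondecreasing functions that are log-supermodular on the support of `μ`. -/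
theorem result :
    ∀ (m n : ℕ), 1 ≤ n →
    ∀ (μ : Finset (Fin m) → ℝ),
      (∀ A, 0 ≤ μ A) →
      (∑ A, μ A = 1) →
      (∀ A B, μ A * μ B ≤ μ (A ∩ B) * μ (A ∪ B)) →
    ∀ (f : Fin n → Finset (Fin m) → ℝ),
      (∀ i A, 0 ≤ f i A) →
      (∀ i, Monotone (f i)) →
    ∀ (J : Finset (Fin n)), J.card ≤ 2 →
      (∀ i, i ∉ J → ∃ (k : ℕ) (g : Fin k → Finset (Fin m) → ℝ),
        (∀ j A, 0 ≤ g j A) ∧
        (∀ j, Monotone (g j)) ∧
        (∀ j A B, μ A ≠ 0 → μ B ≠ 0 → g j A * g j B ≤ g j (A ∩ B) * g j (A ∪ B)) ∧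
        ∀ A, f i A = ∑ j, g j A) →
      0 ≤ ∑ P ∈ (Finset.univ : Finset (Finset (Finset (Fin n)))).filter
              (fun P => (∀ B ∈ P, B.Nonempty) ∧ ∀ i : Fin n, ∃! B, B ∈ P ∧ i ∈ B),
            (-1 : ℝ) ^ (P.card + 1) *
              ∏ B ∈ P, (((B.card - 1).factorial : ℝ) * ∑ A, μ A * ∏ i ∈ B, f i A) := by
  intro m n hn μ hμ0 hμ1 hμ f hf0 hf J hJ h
  have := Pool.H248.Sahi.En_nonneg hn μ hμ0 hμ1 hμ f hf0 hf J hJ h
  unfold Pool.H248.Sahi.En at this
  convert this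

end Pool.Agent.Results.MP_17d4d1_pr.AllButTwoLSM
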