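import Mathlib
import Pool.Agent.Sahi.Main

/-!
# MP_17d4d1_pr — the inequality `E_n ≥ 0` when all but two functions are nonnegative combinations of
indicators of principal filters
-/

namespace Pool.Agent.Results.MP_17d4d1_pr.PrincipalFilters

open Classical

/-- Let `μ` be an FKG probability measure on the subsets of `Fin m` and `f₁, …, f_n` nonnegative
nondecreasing functions, all of which, with at most two exceptions `f i₀`, `f i₁`, have the form
`A ↦ ∑_{T ⊆ A} c_T` with all `c_T ≥ 0`. Then `E_n(f₁, …, f_n) ≥ 0`. -/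
theorem result :
    ∀ (m n : ℕ), 1 ≤ n →
    ∀ (μ : Finset (Fin m) → ℝ),
      (∀ A, 0 ≤ μ A) →
      (∑ A, μ A = 1) →
      (∀ A B, μ A * μ B ≤ μ (A ∩ B) * μ (A ∪ B)) →
    ∀ (f : Fin n → Finset (Fin m) → ℝ),
      (∀ i A, 0 ≤ f i A) →
      (∀ i, Monotone (f i)) →
    ∀ (i₀ i₁ : Fin n),
      (∀ i, i ≠ i₀ → i ≠ i₁ → ∃ c : Finset (Fin m) → ℝ, (∀ T, 0 ≤ c T) ∧
        ∀ A, f i A = ∑ T, if T ⊆ A then c T else 0) →
      0 ≤ ∑ P ∈ (Finset.univ : Finset (Finset (Finset (Fin n)))).filter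
              (fun P => (∀ B ∈ P, B.Nonempty) ∧ ∀ i : Fin n, ∃! B, B ∈ P ∧ i ∈ B),
            (-1 : ℝ) ^ (P.card + 1) *
              ∏ B ∈ P, (((B.card - 1).factorial : ℝ) * ∑ A, μ A * ∏ i ∈ B, f i A) := by
  intro m n hn μ h0 h1 h2 f hf0 hfm i₀ i₁ hc
  have hne : (Finset.univ : Finset (Fin n)).Nonempty := ⟨⟨0, hn⟩, Finset.mem_univ _⟩
  have key := Pool.Agent.Sahi.main_ind hf0 hfm (fun i => i ≠ i₀ ∧ i ≠ i₁)
    (fun i hi => hc i hi.1 hi.2) Finset.univ hne (by
      have hsub : (Finset.univ : Finset (Fin n)).filter (fun i => ¬(i ≠ i₀ ∧ i ≠ i₁)) ⊆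
          {i₀, i₁} := by
        intro i hi
        rw [Finset.mem_filter] at hi
        rw [Finset.mem_insert, Finset.mem_singleton]
        by_contra hcon
        push Not at hcon
        exact hi.2 hcon
      exact (Finset.card_le_card hsub).trans Finset.card_le_two) μ ⟨h0, h1, h2⟩
  refine key.trans (le_of_eq ?_)
  rw [Pool.Agent.Sahi.Ex, ← Finset.sum_neg_distrib]
  refine Finset.sum_congr ?_ fun P _ => ?_
  · ext P
    rw [Pool.Agent.Sahi.mem_parts, Finset.mem_filter]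
    constructor
    · rintro ⟨ha, hb⟩
      exact ⟨Finset.mem_univ _, fun B hB => (ha B hB).1, fun i => hb i (Finset.mem_univ i)⟩
    · rintro ⟨_, ha, hb⟩
      exact ⟨fun B hB => ⟨ha B hB, Finset.subset_univ B⟩, fun i _ => hb i⟩
  · have h3 : ∀ x : Finset (Fin n) → ℝ, ∏ B ∈ P, -x B = (-1) ^ P.card * ∏ B ∈ P, x B := by
      intro x
      rw [← Finset.prod_const, ← Finset.prod_mul_distrib]
      exact Finset.prod_congr rfl fun B _ => by ring
    have h4 : ∏ B ∈ P, Pool.Agent.Sahi.gw (Pool.Agent.Sahi.mom μ f) B =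
        (-1) ^ P.card * ∏ B ∈ P, (((B.card - 1).factorial : ℝ) *
          ∑ A, μ A * ∏ i ∈ B, f i A) := by
      rw [← h3]
      rfl
    rw [h4, pow_succ]
    ring

end Pool.Agent.Results.MP_17d4d1_pr.PrincipalFilters
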